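import Mathlib
import Pool.Agent.Lib_helper79.Gap.LT

/-! MODULE LT1 : the Laplace transforms of the staircase model converge. -/

set_option autoImplicit false

open Finset Filter Topology

namespace Pool.Agent.Gap

/-- array form of the scaling limit of the staircase model (module LIM2 of helper73) -/
def LIM2A_Stmt : Prop := ∀ (lam : ℝ) (w : ℂ), 0 ≤ lam → 0 < w.re → ∀ (N : ℕ → ℕ),
  (∀ n, 4 * n ^ 2 ≤ N n) → ∀ (b : ℕ → ℕ → ℤ → ℝ),
    (∀ n, IsArr stair cap1 (epsn lam n) (N n) (b n)) →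
    ∃ l : ℂ, Tendsto (fun n : ℕ => sgf 1 (close 1 cap1 (b n)) (zn (1 / 4) w n)
      / ((Real.sqrt n : ℝ) : ℂ)) atTop (𝓝 l)

theorem LT1 (hLIM : LIM2A_Stmt) (hJ1 : J1_Stmt) (hJ2 : J2_Stmt) (hX1 : X1_Stmt) (hB1 : B1_Stmt) :
    LT1_Stmt := by
  intro B0 hB0 lam hlam
  set N : ℕ → ℕ := fun n => 4 * n ^ 2 + 2 * (n + 1) + 1 with hN
  have h1N : ∀ n, 1 ≤ N n := fun n => by simp only [hN]; omega
  have hex : ∀ n, ∃ b, IsArr stair cap1 (epsn lam n) (N n) b := fun n =>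
    (hJ1 stair 1 cap1 isCap_cap1 (N n) (epsn lam n) (epsn_nonneg _ hlam _)).1
  choose b hbA using hex
  obtain ⟨C, _, hJ⟩ := hJ2 stair 1 cap1 cap1 isCap_cap1 isCap_cap1
  obtain ⟨L, hL⟩ := hX1 (1 / 4) C (fun n => close 1 cap1 (b n)) (by norm_num)
    (by
      intro n z hz
      obtain ⟨a1, _, a3, a4⟩ := hJ (N n) (epsn lam n) (epsn_nonneg _ hlam _) (h1N n)
        (b n) (b n) (hbA n) (hbA n) z hz
      have e4 : ((stair.rho : ℝ) : ℂ) = (((1 / 4 : ℝ) : ℝ) : ℂ) := rfl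
      rw [e4] at a3 a4
      exact ⟨a1, a3, a4⟩)
    (fun w hw => hLIM lam w hlam hw N (fun n => by simp only [hN]; omega) b hbA)
  refine ⟨L, hL.congr fun n => ?_⟩
  have ev : close 1 cap1 (b n) n = (closeP 1 cap1 B0 n).eval (Real.exp (-(epsn lam n))) := by
    refine eval_closeP 1 cap1 B0 (b n) _ n fun m hmn g => ?_
    refine hB1 stair 1 cap1 isCap_cap1 B0 hB0 (N n) (epsn lam n) (b n)
      (epsn_nonneg _ hlam _) (hbA n) m ?_ g
    have hR : stair.R = 1 := rfl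
    rw [hR]
    simp only [hN]
    nlinarith
  rw [ev]

end Pool.Agent.Gap
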